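import Mathlib
import Pool.Agent.T6.H51.MI.Defs
import Pool.Agent.T6.H51.MI.MOD
import Pool.Agent.T6.H51.MI.GLP
import Pool.Agent.T6.H51.MI.GLJ
import Pool.Agent.T6.H51.MI.SGN
import Pool.Agent.T6.H51.MI.Asm
import Pool.Agent.T6.H51.MI.Real

/-!
# Powers of Mills numbers and cubic Pisot numbers
-/

set_option autoImplicit false

namespace Pool.Agent.Results.MP_2c63aa_nt.CubicPisot

/-- `A` is a Mills number: the integer part of `A ^ (3 ^ n)` is prime for every `n ≥ 1`. -/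
def IsMills (A : ℝ) : Prop := 0 < A ∧ ∀ n : ℕ, 1 ≤ n → Nat.Prime ⌊A ^ 3 ^ n⌋₊

/-- Let `A` be a Mills number and suppose that `α = A ^ (3 ^ m)` is a cubic Pisot number: it is a
root of `X ^ 3 - a X ^ 2 + b X - c` with integers `a, b, c`, `c ≠ 0`, whose other roots `β, γ` have
absolute value less than `1`. Then `β` and `γ` are real, and for some sign `δ` all the traces
`α ^ (3 ^ k) + β ^ (3 ^ k) + γ ^ (3 ^ k)` are congruent to `δ + ε` modulo `3 ^ (k + 1)`, where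
`ε = 1` if `β + γ > 0` and `ε = 0` otherwise. -/
theorem result (A : ℝ) (hA : IsMills A) (m : ℕ) (a b c : ℤ) (hc : c ≠ 0) (β γ : ℂ)
    (hroots : ∀ x : ℂ, x ^ 3 - a * x ^ 2 + b * x - c =
      (x - ((A ^ 3 ^ m : ℝ) : ℂ)) * (x - β) * (x - γ)) (hβ : ‖β‖ < 1) (hγ : ‖γ‖ < 1) :
    β.im = 0 ∧ γ.im = 0 ∧ ∃ δ : ℤ, (δ = 1 ∨ δ = -1) ∧ ∀ k : ℕ, ∃ t : ℤ,
      (t : ℂ) = ((A ^ 3 ^ m : ℝ) : ℂ) ^ 3 ^ k + β ^ 3 ^ k + γ ^ 3 ^ k ∧
      (3 : ℤ) ^ (k + 1) ∣ t - δ - (if 0 < (β + γ).re then 1 else 0) := by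
  have hR : Pool.Agent.T6.H51.MI.Rts a b c ((A ^ 3 ^ m : ℝ) : ℂ) β γ := by
    have h0 := hroots 0
    have h1 := hroots 1
    have h2 := hroots (-1)
    refine ⟨?_, ?_, ?_⟩
    · linear_combination (-1 / 2 : ℂ) * h1 - (1 / 2 : ℂ) * h2 + h0
    · linear_combination (1 / 2 : ℂ) * h1 - (1 / 2 : ℂ) * h2
    · linear_combination -h0
  have hs : (β + γ).im = 0 := by
    have h1 : β + γ = (a : ℂ) - ((A ^ 3 ^ m : ℝ) : ℂ) := by
      rw [hR.1]
      ring
    rw [h1, Complex.sub_im, Complex.intCast_im, Complex.ofReal_im, sub_zero]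
  have hm : (β * γ).im = 0 := by
    have h1 : β * γ = (b : ℂ) - ((A ^ 3 ^ m : ℝ) : ℂ) * (β + γ) := by
      rw [hR.2.1]
      ring
    rw [h1, Complex.sub_im, Complex.intCast_im, Complex.im_ofReal_mul, hs]
    ring
  rw [Complex.add_im] at hs
  rw [Complex.mul_im] at hm
  have hg : γ.im = -β.im := by linarith
  by_cases hi : β.im = 0
  · have hgi : γ.im = 0 := by rw [hg, hi, neg_zero]
    refine ⟨hi, hgi, ?_⟩
    have hb1 : β = ((β.re : ℝ) : ℂ) := Complex.ext rfl (by simpa using hi)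
    have hg1 : γ = ((γ.re : ℝ) : ℂ) := Complex.ext rfl (by simpa using hgi)
    have hR' := hR
    rw [hb1, hg1] at hR'
    have hb2 : |β.re| < 1 := lt_of_le_of_lt (Complex.abs_re_le_norm β) hβ
    have hg2 : |γ.re| < 1 := lt_of_le_of_lt (Complex.abs_re_le_norm γ) hγ
    obtain ⟨δ, hδ, h⟩ := Pool.Agent.T6.H51.MI.real_case hA.1 hA.2 m a b c hc β.re γ.re hR' hb2 hg2
    refine ⟨δ, hδ, fun k => ⟨_, Pool.Agent.T6.H51.MI.ModAux.S_pow a b c _ _ _ hR (3 ^ k), ?_⟩⟩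
    rw [Complex.add_re]
    exact h k
  · exfalso
    have h1 : γ.re = β.re := by
      rw [hg] at hm
      have h2 : β.im * (γ.re - β.re) = 0 := by linarith
      rcases mul_eq_zero.1 h2 with h3 | h3
      · exact absurd h3 hi
      · linarith
    have h2 : γ = (starRingEnd ℂ) β := by
      apply Complex.ext
      · rw [Complex.conj_re, h1]
      · rw [Complex.conj_im, hg]
    rw [h2] at hR
    exact Pool.Agent.T6.H51.MI.asm Pool.Agent.T6.H51.MI.mod Pool.Agent.T6.H51.MI.glp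
      Pool.Agent.T6.H51.MI.sgn hA.1 hA.2 m a b c β hR hi hβ

end Pool.Agent.Results.MP_2c63aa_nt.CubicPisot
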